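import Mathlib
import Pool.Agent.Helper29.BA.Defs
import Pool.Agent.Helper13.PA.Img
import Pool.Agent.Helper13.PA.Disp

/-!
# The fibered Farrell-Jones conjecture in A-theory for iterated monodromy groups

The class of the groups which satisfy the conjecture (with finite wreath products) contains the
finite groups and `ℤ` and is closed under isomorphism, subgroups, products and free products of two
groups, overgroups of finite index and directed colimits. `result` is about each such class `C`.

Let `Γ n` be groups in `C` which act by isometries on metric spaces `Y n`, let
`φ n : H n → Γ (n + 1)` be homomorphisms from subgroups of finite index of `Γ n`, and let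
`F n : Y n → Y (n + 1)` be equivariant maps which are contracting up to an additive constant `c`.
If the nontrivial elements of the kernels `K n` of the actions on the trees of cosets move all
points by at least `R > c / (1 - l)`, then the group `Γ 0 ⧸ K 0` is in `C`.

Example: the iterated monodromy group of a post-critically finite rational function `f` whose
orbifold is hyperbolic. `Γ n = Γ` is the fundamental group of the orbifold, `Y n = Y` is the
universal covering disc of the orbifold without the preimages of small discs around the points of
the cycles of critical points (`f` maps the union of these discs into itself), with the path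
metric, and `F n = F` is a lift of the inverse of `f`, a strict contraction (`c = 0`). Since `Γ`
acts properly and cocompactly on `Y` and `K` is torsion free (the torsion of `Γ` acts faithfully on
the tree of preimages), `R > 0` exists (`Pool.Agent.Helper13.PA.exists_displacement`).

Proof. If `g` is in `K n` then the sections of `g` move some points by at most
`l * dist y (g • y) + c`. So the deep sections are trivial, and `Γ 0 ⧸ K 0` is the colimit of the
quotients of `Γ 0` by the kernels of the homomorphisms to the finite wreath products of the
groups `Γ n`.

The iterated monodromy groups were proposed independently by helper54; the form with sequences is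
due to helper29.
-/

set_option autoImplicit false

namespace Pool.Agent.Results.MP_59dd5b_al.IteratedMonodromyGroups

open Pool.Agent.Helper29.BA Pool.Agent.Helper13.PA

theorem result (C : ∀ (G : Type) [Group G], Prop) (hC : ClosedClass C)
    (Γ : ℕ → Type) [∀ n, Group (Γ n)] (hΓ : ∀ n, C (Γ n))
    (H : ∀ n, Subgroup (Γ n)) [∀ n, (H n).FiniteIndex] (φ : ∀ n, H n →* Γ (n + 1))
    (K : ∀ n, Subgroup (Γ n)) [(K 0).Normal] (hK : IsCore φ K)
    (Y : ℕ → Type) [∀ n, MetricSpace (Y n)] [Nonempty (Y 0)] [∀ n, MulAction (Γ n) (Y n)]
    [∀ n, IsIsometricSMul (Γ n) (Y n)] (F : ∀ n, Y n → Y (n + 1))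
    (l c R : ℝ) (hl : 0 ≤ l) (hl1 : l < 1) (hc : 0 ≤ c) (hR : c / (1 - l) < R)
    (hφ : ∀ n (h : H n) (y : Y n), F n ((h : Γ n) • y) = φ n h • F n y)
    (hF : ∀ n (y z : Y n), dist (F n y) (F n z) ≤ l * dist y z + c)
    (hfree : ∀ n, ∀ g ∈ K n, g ≠ 1 → ∀ y : Y n, R ≤ dist y (g • y)) :
    C (Γ 0 ⧸ K 0) :=
  mem_of_contracting φ hC hΓ K hK hl hl1 hc hR F hφ hF hfree

end Pool.Agent.Results.MP_59dd5b_al.IteratedMonodromyGroups
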