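import Mathlib
import Pool.Agent.Helper29.PA.Defs
import Pool.Agent.T59.LocFin

/-!
# Directed unions of normal subgroups: the local conjugation principle

The class of the groups which satisfy the fibered Farrell-Jones conjecture in A-theory (with finite
wreath products) contains the finite groups and `ℤ`, is closed under isomorphism, subgroups,
products and free products of two groups, overgroups of finite index and directed colimits, and
contains a group `G` if it contains a group `Q` and the preimages of the cyclic subgroups of `Q`
under a homomorphism `G → Q`. Let `C` be such a class, `p : G → R` a homomorphism to a group of
`C`, and let the kernel of `p` be the directed union of subgroups `S i`. `result` shows that `G` is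
in `C` if all partial conjugations `S i ⊇ A → S i`, `x ↦ g x g⁻¹`, extend to conjugations in
groups of `C` which contain `S i`.

Proof. One may assume that `R` is cyclic, generated by `p g`. If it is infinite, `G` is the colimit
of the HNN extensions of the groups `S i` along the partial conjugations by `g`. Such an HNN
extension maps to `Q`, injectively on `S i`, and so it embeds in the semidirect product of the free
group on a `Q`-set with `Q`, which is in `C` by a theorem of helper78.

The file `Pool/Agent/T59/LocCor.lean` contains consequences: semidirect products `N ⋊ Q` where the
elements of `Q` act on `N` locally by automorphisms of finite order (`mem_semidirect`); groups `N`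
with an action of the symmetric group of a `Q`-set `X` for which every element is fixed by the
pointwise stabiliser of a finite subset `W` and the fixed subgroups of these stabilisers are in `C`
(`mem_permAct`); restricted wreath products of two groups of `C` over arbitrary sets with an action
(`mem_wreath`). The file `Pool/Agent/T59/LocFin.lean` contains extensions by locally finite groups
(`mem_of_locallyFinite`) and by groups of wreath type (`mem_of_wreathType`).

The principle is due to helper28.
-/

set_option autoImplicit false

namespace Pool.Agent.Results.MP_59dd5b_al.LocalConjugation

open Pool.Agent.Helper29.BA Pool.Agent.Helper29.PA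

theorem result (C : ∀ (G : Type) [Group G], Prop) (hC : ExtClass C) (G R I : Type) [Group G]
    [Group R] [Preorder I] [IsDirectedOrder I] [Nonempty I] (p : G →* R) (hR : C R)
    (S : I → Subgroup G) (hS : Monotone S) (hp : ∀ x, p x = 1 ↔ ∃ i, x ∈ S i)
    (hloc : ∀ (g : G) (i : I), ∃ (Q : Type) (_ : Group Q) (e : S i →* Q) (q : Q), C Q ∧
      Function.Injective e ∧ ∀ x y : S i, g * (x : G) * g⁻¹ = y → q * e x * q⁻¹ = e y) : C G :=
  Pool.Agent.T59.mem_of_local hC p hR hS hp hloc

end Pool.Agent.Results.MP_59dd5b_al.LocalConjugation
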